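import Mathlib

set_option autoImplicit false

/-! Two estimates with iterated logarithms. -/

namespace Pool.Agent.W538.TN

open Filter Topology

theorem tendL : Tendsto (fun N : ℕ => Real.log (Real.log (N : ℝ))) atTop atTop :=
  Real.tendsto_log_atTop.comp (Real.tendsto_log_atTop.comp tendsto_natCast_atTop_atTop)

theorem t_NUM2 : ∀ (c K : ℝ), 0 < c → ∃ N₀ : ℕ, ∀ N : ℕ, N₀ ≤ N →
    K * (N : ℝ) ^ (1 - c / Real.log (Real.log N) ^ 3) ≤ (N : ℝ) ^ (1 - c / 2 / Real.log (Real.log N) ^ 3) := by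
  intro c K hc
  have h1 : Tendsto (fun N : ℕ => Real.exp (Real.log (Real.log (N : ℝ))) /
      Real.log (Real.log (N : ℝ)) ^ 3) atTop atTop :=
    (Real.tendsto_exp_div_pow_atTop 3).comp tendL
  have h2 : Tendsto (fun N : ℕ => Real.exp (c / 2 * (Real.exp (Real.log (Real.log (N : ℝ))) /
      Real.log (Real.log (N : ℝ)) ^ 3))) atTop atTop :=
    Real.tendsto_exp_atTop.comp (h1.const_mul_atTop (by positivity))
  have h3 := h2.eventually_ge_atTop K
  have h4 : ∀ᶠ N : ℕ in atTop, 3 ≤ N := eventually_ge_atTop 3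
  obtain ⟨N₀, hN₀⟩ := eventually_atTop.1 (h3.and h4)
  refine ⟨N₀, fun N hN => ?_⟩
  obtain ⟨h5, h6⟩ := hN₀ N hN
  have hN0 : (0 : ℝ) < N := by
    have : (3 : ℝ) ≤ N := by exact_mod_cast h6
    linarith
  have hlog : 0 < Real.log N := Real.log_pos (by
    have : (3 : ℝ) ≤ N := by exact_mod_cast h6
    linarith)
  rw [Real.exp_log hlog] at h5
  have h7 : (N : ℝ) ^ (1 - c / 2 / Real.log (Real.log N) ^ 3) =
      Real.exp (c / 2 * (Real.log N / Real.log (Real.log N) ^ 3)) *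
        (N : ℝ) ^ (1 - c / Real.log (Real.log N) ^ 3) := by
    have h8 : Real.exp (c / 2 * (Real.log N / Real.log (Real.log N) ^ 3)) =
        (N : ℝ) ^ (c / 2 / Real.log (Real.log N) ^ 3) := by
      rw [Real.rpow_def_of_pos hN0]
      congr 1
      ring
    rw [h8, ← Real.rpow_add hN0]
    congr 1
    ring
  rw [h7]
  exact mul_le_mul_of_nonneg_right h5 (Real.rpow_nonneg hN0.le _)

theorem t_NUM3 : ∀ (c δ : ℝ), 0 < c → 0 < δ → ∃ N₀ : ℕ, ∀ N : ℕ, N₀ ≤ N →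
    (N : ℝ) ^ (c / Real.log (Real.log N) ^ 3) ≤ (N : ℝ) ^ δ := by
  intro c δ hc hδ
  have h1 : Tendsto (fun N : ℕ => Real.log (Real.log (N : ℝ)) ^ 3) atTop atTop :=
    (tendsto_pow_atTop (by norm_num)).comp tendL
  have h2 : Tendsto (fun N : ℕ => c / Real.log (Real.log (N : ℝ)) ^ 3) atTop (𝓝 0) :=
    h1.const_div_atTop c
  have h3 : ∀ᶠ N : ℕ in atTop, c / Real.log (Real.log (N : ℝ)) ^ 3 < δ := h2.eventually_lt_const hδ
  obtain ⟨N₀, hN₀⟩ := eventually_atTop.1 (h3.and (eventually_ge_atTop 1))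
  refine ⟨N₀, fun N hN => ?_⟩
  obtain ⟨h4, h5⟩ := hN₀ N hN
  exact Real.rpow_le_rpow_of_exponent_le (by exact_mod_cast h5) h4.le

end Pool.Agent.W538.TN
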